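import Mathlib

namespace Pool.Agent.Results.MP_c9cfcf_pr.Q1

open Finset ENNReal Nat

variable {C : Type} (p : PMF C)

/-- `ℙ(X = i)`. -/
noncomputable def PX (i : C) : ℝ≥0∞ := p i ^ 2 / ∑' j, p j ^ 2

/-- Sum of `∏ p_j` over the `k`-subsets of `C \ {i}`. -/
noncomputable def u (i : C) (k : ℕ) : ℝ≥0∞ :=
  ∑' J : {J : Finset C | i ∉ J ∧ #J = k}, ∏ j ∈ J.1, p j

/-- `ℙ(Y = i)`. -/
noncomputable def PY (i : C) : ℝ≥0∞ := p i ^ 2 * ∑' k, (k + 1)! * u p i k

/-- The discrepancy; `(a - b) + (b - a) = |a - b|` in `[0, ∞]`. -/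
noncomputable def D : ℝ≥0∞ := (∑' i, ((PX p i - PY p i) + (PY p i - PX p i))) / 2

open Classical

noncomputable def e (k : ℕ) : ℝ≥0∞ := ∑' J : Finset C, if #J = k then ∏ j ∈ J, p j else 0

lemma u_eq (i k) : u p i k = ∑' J : Finset C, if i ∉ J ∧ #J = k then ∏ j ∈ J, p j else 0 :=
  (_root_.tsum_subtype _ fun J : Finset C => ∏ j ∈ J, p j).trans
    (tsum_congr fun J => by simp [Set.indicator_apply])

lemma key (i k) : p i * u p i k =
    ∑' J : Finset C, if i ∈ J ∧ #J = k + 1 then ∏ j ∈ J, p j else 0 := by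
  have inj : Function.Injective fun J : {J : Finset C | i ∉ J ∧ #J = k} => insert i J.1 :=
    fun a b h => Subtype.ext (by rw [← erase_insert a.2.1, ← erase_insert b.2.1]; exact congrArg (erase · i) h)
  rw [← inj.tsum_eq, u, ← ENNReal.tsum_mul_left]
  · exact tsum_congr fun J => by simp [J.2.1, J.2.2, prod_insert, card_insert_of_notMem]
  · intro J hJ
    have : i ∈ J ∧ #J = k + 1 := by by_contra h; simp [h] at hJ
    exact ⟨⟨J.erase i, by simp, by simp [this]⟩, insert_erase this.1⟩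

lemma eA (i k) : e p (k + 1) = u p i (k + 1) + p i * u p i k := by
  rw [key, u_eq, ← ENNReal.tsum_add]
  exact tsum_congr fun J => by by_cases h : i ∈ J <;> simp [h]

lemma eB (k) : ∑' i, p i * u p i k = (k + 1) * e p (k + 1) := by
  simp only [key]
  rw [ENNReal.tsum_comm, e, ← ENNReal.tsum_mul_left]
  refine tsum_congr fun J => ?_
  rw [tsum_eq_sum (s := J) fun i h => by simp [h]]
  split_ifs with h
  · rw [sum_congr rfl fun i g => if_pos ⟨g, h⟩]; simp [h]
  · simp [h]

lemma u0 (i) : u p i 0 = 1 := by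
  rw [u_eq, tsum_eq_single ∅ fun J h => by simp [h]]; simp

lemma ue (i k) : u p i k ≤ e p k := by
  rw [u_eq]; exact ENNReal.tsum_le_tsum fun J => by split_ifs <;> simp_all

noncomputable def y (k : ℕ) : ℝ≥0∞ := ∑' i, p i ^ 2 * ((k + 1)! * u p i k)

lemma tel (n) : ∑ k ∈ range n, y p k + (n + 1)! * e p (n + 1) = 1 := by
  induction n with
  | zero => simpa [u0, p.tsum_coe] using (eB p 0).symm
  | succ n ih =>
    have : e p (n + 1) = (n + 1 + 1) * e p (n + 2) + ∑' i, p i ^ 2 * u p i n := by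
      have := eB p (n + 1)
      push_cast at this
      rw [← this, ← ENNReal.tsum_add, ← one_mul (e p _), ← p.tsum_coe, ← ENNReal.tsum_mul_right]
      exact tsum_congr fun i => by rw [eA p i]; ring
    rw [← ih, sum_range_succ, this, factorial_succ (n + 1), y, mul_add, ← ENNReal.tsum_mul_left]
    simp only [mul_left_comm (p _ ^ 2)]
    push_cast; ring

lemma q1 (n) : n ! * e p n ≤ 1 := by
  cases n with
  | zero => rw [e, tsum_eq_single ∅ fun J h => by simp [h]]; simp
  | succ n => exact tel p n ▸ le_add_self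

lemma sumY : ∑' i, PY p i ≤ 1 := by
  simp only [PY, ← ENNReal.tsum_mul_left]
  rw [ENNReal.tsum_comm]
  exact tsum_le_of_sum_range_le fun n => tel p n ▸ le_self_add

lemma low (i n) : 1 ≤ n ! * u p i n + n * p i + (∑ k ∈ range n, (k : ℝ≥0∞)) * ∑' j, p j ^ 2 := by
  cases n with
  | zero => simp [u0]
  | succ n =>
    have a (j k) : (k + 1)! * u p j k ≤ k + 1 := by
      rw [factorial_succ]; push_cast
      rw [mul_assoc]
      exact mul_le_of_le_one_right' ((mul_le_mul_right (ue p j k) _).trans (q1 p k))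
    rw [← tel p n, add_comm, eA p i, mul_add, sum_range_succ', mul_left_comm, mul_comm _ (p i)]
    push_cast
    rw [add_zero, sum_mul]
    gcongr with k
    · exact a i n
    · rw [y, ← ENNReal.tsum_mul_left]
      exact ENNReal.tsum_le_tsum fun j => by rw [mul_comm]; exact mul_le_mul_left (a j k) _

lemma arith {f x : ℝ} (a : ℕ → ℝ) (f0 : 0 < f) (hx : x ^ 2 ≤ f)
    (h : ∀ n : ℕ, 1 ≤ a n + n * x + (∑ k ∈ range n, (k : ℝ)) * f) :
    ∃ K, 3 / 64 ≤ f * ∑ k ∈ range K, (k + 1) * a k := by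
  have ex : ∃ K : ℕ, 1 < 4 * K ^ 2 * f := by
    obtain ⟨K, hK⟩ := exists_nat_gt (1 / f)
    rw [div_lt_iff₀ f0] at hK
    refine ⟨K, hK.trans_le (mul_le_mul_of_nonneg_right ?_ f0.le)⟩
    norm_cast; nlinarith
  have g (n : ℕ) : ∑ k ∈ range n, (k : ℝ) = n * (n - 1) / 2 := by
    induction n with
    | zero => simp
    | succ n ih => rw [sum_range_succ, ih]; push_cast; ring
  refine ⟨Nat.find ex, ?_⟩
  have h1 := Nat.find_spec ex
  have : ∑ k ∈ range (Nat.find ex), ((k : ℝ) * (3 / 8) + 3 / 8) ≤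
      ∑ k ∈ range (Nat.find ex), (k + 1) * a k := sum_le_sum fun k hk => by
    have h2 := not_lt.1 (Nat.find_min ex (mem_range.1 hk))
    have h3 := h k
    have k0 := k.cast_nonneg (α := ℝ)
    rw [g] at h3
    have : 2 * k * x ≤ 1 := abs_le_one_iff_mul_self_le_one.2 (by nlinarith [sq_nonneg (k : ℝ)]) |>.trans'
      (le_abs_self _)
    have : 3 / 8 ≤ a k := by nlinarith [mul_nonneg k0 f0.le]
    nlinarith
  rw [sum_add_distrib, ← sum_mul, g] at this
  simp only [sum_const, card_range, nsmul_eq_mul] at this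
  have k0 := (Nat.find ex).cast_nonneg (α := ℝ)
  nlinarith [mul_le_mul_of_nonneg_left this f0.le, mul_nonneg k0 f0.le]

theorem result (C : Type) (p : PMF C) : D p ≤ 61 / 64 := by
  have f1 : ∑' j, p j ^ 2 ≤ 1 := p.tsum_coe ▸ ENNReal.tsum_le_tsum fun j =>
    pow_le_of_le_one zero_le (p.coe_le_one j) two_ne_zero
  have ft := ne_top_of_le_ne_top one_ne_top f1
  have f0 : ∑' j, p j ^ 2 ≠ 0 := by
    obtain ⟨j, h⟩ := p.support_nonempty
    exact fun g => h (pow_eq_zero_iff two_ne_zero |>.1 (ENNReal.tsum_eq_zero.1 g j))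
  have sX : ∑' i, PX p i = 1 := by
    simp only [PX, div_eq_mul_inv, ENNReal.tsum_mul_right]; exact ENNReal.mul_inv_cancel f0 ft
  have k (i) : 3 / 64 * PX p i ≤ PY p i := by
    have ut (n) : n ! * u p i n ≠ ∞ :=
      ne_top_of_le_ne_top one_ne_top ((mul_le_mul_right (ue p i n) _).trans (q1 p n))
    obtain ⟨K, hK⟩ := arith (x := (p i).toReal) (fun n => (n ! * u p i n).toReal) (toReal_pos f0 ft)
      (by rw [← toReal_pow]; exact toReal_mono ft (ENNReal.le_tsum (f := fun j => p j ^ 2) i)) fun n => by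
        have s : (∑ k ∈ range n, (k : ℝ≥0∞)) ≠ ∞ := sum_ne_top.2 fun _ _ => natCast_ne_top _
        have t := mul_ne_top (natCast_ne_top n) (p.apply_ne_top i)
        have := toReal_mono (by simp [ut, t, mul_ne_top s ft]) (low p i n)
        rw [toReal_add (by simp [ut, t]) (mul_ne_top s ft), toReal_add (ut n) t, toReal_mul (a := n),
          toReal_mul (a := Finset.sum _ _), toReal_sum fun _ _ => natCast_ne_top _] at this
        simpa using this
    have : 3 / 64 ≤ (∑' j, p j ^ 2) * ∑ k ∈ range K, (k + 1) * (k ! * u p i k) := by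
      have t (k : ℕ) : ((k : ℝ≥0∞) + 1) * (k ! * u p i k) ≠ ∞ := mul_ne_top (by simp) (ut k)
      rw [← toReal_le_toReal (by finiteness) (mul_ne_top ft (sum_ne_top.2 fun k _ => t k)), toReal_mul,
        toReal_sum fun k _ => t k]
      simpa [toReal_add] using hK
    rw [PX, PY, mul_comm, div_eq_mul_inv, mul_assoc]
    gcongr
    rw [ENNReal.inv_mul_le_iff f0 ft]
    refine this.trans (mul_le_mul_right ((sum_le_sum fun k _ => ?_).trans (ENNReal.sum_le_tsum _)) _)
    rw [factorial_succ]; push_cast; rw [mul_assoc]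
  have : ∑' i, ((PX p i - PY p i) + (PY p i - PX p i)) + 3 / 64 * 2 ≤ 2 := by
    rw [← mul_one (_ * 2), ← sX, ← ENNReal.tsum_mul_left, ← ENNReal.tsum_add]
    refine le_trans (ENNReal.tsum_le_tsum fun i => ?_) (ENNReal.tsum_add.le.trans
      ((add_le_add sX.le (sumY p)).trans one_add_one_eq_two.le))
    have a : 3 / 64 * PX p i ≤ min (PX p i) (PY p i) := le_min (mul_le_of_le_one_left'
      (ENNReal.div_le_of_le_mul (by norm_num))) (k i)
    rw [mul_right_comm, mul_two, add_add_add_comm]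
    exact add_le_add ((add_le_add_right a _).trans (tsub_add_min).le)
      ((add_le_add_right a _).trans (by rw [min_comm]; exact (tsub_add_min).le))
  rw [D, ENNReal.div_le_iff two_ne_zero ofNat_ne_top,
    ← ENNReal.add_le_add_iff_right (a := 3 / 64 * 2) (by finiteness), ← add_mul, ← ENNReal.add_div]
  norm_num [ENNReal.div_self]
  exact this

end Pool.Agent.Results.MP_c9cfcf_pr.Q1
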